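import Pool.Agent.Q92.PA.Laws

/-!
# The parity conjecture for semistable elliptic curves: descent along families of fields

`E` is a semistable elliptic curve over a number field `K`, and `F` runs through finite extensions of
`K`; no condition on the ramification of `F/K`.  The root number of `E/F` is `(-1)^(m+u)`, `m` the number
of the primes of `F` of split multiplicative reduction and `u` the number of archimedean places of `F`.
-/

set_option autoImplicit false

namespace Pool.Agent.Results.MP_02f36d_nt.DescentAlongFamilies

open NumberField IsDedekindDomain Pool.Agent.Q92.PA.Laws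

/-- `E` is a semistable elliptic curve over a number field `K`.
1. In every relation `∑ n_j · 1_{F_j} = m` between the permutation characters of finite extensions `F_j` of
`K`, the same relation holds for the numbers rank + `m` + `u` of `E` over the fields.
2. Let `𝓕` be a family of finite extensions in the algebraic closure of `K`, closed under isomorphisms and
composita, such that for every `σ` some `F ∈ 𝓕` has an odd number of embeddings fixed by `σ`. If the
parity conjecture holds for `E/F` for all `F ∈ 𝓕`, it holds for `E/K`.
3. Let `L/K` be a Galois extension. If it holds for `E/F` for all intermediate fields `F` such that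
`Gal(L/F)` is of type `TwoType`, it holds for all intermediate fields. -/
theorem result (K : Type) [Field K] [NumberField K] (E : WeierstrassCurve K) (hE : E.IsElliptic)
    (hs : Semistable E) : RelationLaw E ∧ FamilyLaw E ∧ GaloisLaw E := by
  have hs' : Pool.Agent.Q92.PA.Semistable E := hs
  refine ⟨?_, ?_, ?_⟩
  · intro ι _ F _ _ _ n m h
    let Y : ι → Pool.Agent.Q5.BR.Ext K := fun j => @Pool.Agent.Q5.BR.Ext.mk K _ _ (F j) _ _ _
    have h1 := Pool.Agent.Q92.PA.Dd_rel (Y := Y) (n := n) (m := m) (fun τ => by
      rw [← h τ]
      refine Finset.sum_congr rfl fun j _ => ?_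
      rw [fix_eq]) hE hs'
    have h2 : ∀ (F : Type) [Field F] [NumberField F] (E : WeierstrassCurve F),
        (rank E + places E : ℤ) = (Pool.Agent.Q92.PA.Dd E : ℤ) := by
      intro F _ _ E
      have h0 : places E = Pool.Agent.Q92.PA.spl E + Pool.Agent.Q92.PA.pl F := rfl
      have h1 : Pool.Agent.Q92.PA.Dd E = rank E + places E := by
        rw [h0]
        change rank E + Pool.Agent.Q92.PA.pl F + Pool.Agent.Q92.PA.spl E = _
        ring
      rw [h1]
      push_cast
      rfl
    rw [h2, ← h1]
    exact Finset.sum_congr rfl fun j _ => by rw [h2]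
  · rintro 𝓕 ⟨h1, h2, h3, h4⟩ h5
    rw [parity_iff]
    refine Pool.Agent.Q92.PA.par_family hE hs' ⟨h1, h2, h3, fun σ => ?_⟩
      (fun F hF _ => (parity_iff _).1 (h5 F hF))
    obtain ⟨F, hF, hodd⟩ := h4 σ
    have hfd := h1 F hF
    have hnf : NumberField F := NumberField.of_module_finite K F
    refine ⟨F, hF, ?_⟩
    rw [← fix_eq]
    exact fun h => Nat.not_even_iff_odd.2 hodd (even_iff_two_dvd.2 h)
  · intro L _ _ _ _ h F _ _ _ _ _
    rw [parity_iff]
    refine Pool.Agent.Q92.PA.par_red' hE hs' L ?_ F
    rintro F' _ _ _ _ _ ⟨C, h1, h2, h3, h4⟩ h5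
    exact (parity_iff _).1 (h F' ⟨⟨C, h1, h2, Nat.coprime_two_right.1 h3, h4⟩, h5⟩)

end Pool.Agent.Results.MP_02f36d_nt.DescentAlongFamilies
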