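import Pool.Agent.Q92.PA.Laws

/-!
# The parity conjecture for semistable elliptic curves: fields generated by radicals

`E` is a semistable elliptic curve over a number field `K`, and `F` runs through finite extensions of
`K`; no condition on the ramification of `F/K`.  The root number of `E/F` is `(-1)^(m+u)`, `m` the number
of the primes of `F` of split multiplicative reduction and `u` the number of archimedean places of `F`.
-/

set_option autoImplicit false

namespace Pool.Agent.Results.MP_02f36d_nt.RadicalTestFields

open NumberField IsDedekindDomain Pool.Agent.Q92.PA.Laws

/-- `E` is a semistable elliptic curve over a number field `K`, `p` an odd prime, `k` a natural number, `T`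
an infinite set of primes. If the parity conjecture holds for `E/F` for all `F/K` generated by `p`-th
roots of positive integers with prime factors in `T` such that `p ^ k ∣ [F:K]`, it holds for `E/K`. -/
theorem result (K : Type) [Field K] [NumberField K] (E : WeierstrassCurve K) (hE : E.IsElliptic)
    (hs : Semistable E) : RadicalLaw E := by
  intro p k T hp hp2 hT hinf h
  have hs' : Pool.Agent.Q92.PA.Semistable E := hs
  rw [parity_iff]
  exact Pool.Agent.Q92.PA.par_radical hE hs' hp hp2 hT hinf k
    (fun F _ _ _ hr hd => (parity_iff _).1 (h F ⟨hr, hd⟩))

end Pool.Agent.Results.MP_02f36d_nt.RadicalTestFields
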