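import Pool.Agent.Q92.PA.Par
import Pool.Agent.Q5.RX.Deg

/-!
# The parity conjecture for semistable elliptic curves: number fields without automorphisms

`E` is a semistable elliptic curve over a number field `K`, and `F` runs through finite extensions of
`K`; no condition on the ramification of `F/K`.  The root number of `E/F` is `(-1)^(m+u)`, `m` the number
of the primes of `F` of split multiplicative reduction and `u` the number of archimedean places of `F`.
-/

set_option autoImplicit false

namespace Pool.Agent.Results.MP_02f36d_nt.RigidFields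

open NumberField IsDedekindDomain

/-- The identity is the only automorphism of the field `F`. -/
def NoAutomorphisms (F : Type) [Field F] : Prop :=
  ∀ (τ : F ≃+* F) (x : F), τ x = x

section defs
variable {F : Type} [Field F] [NumberField F]

/-- `E` has split multiplicative reduction at `w`: the reduction modulo `w` of an equation `V` of `E` with
integral coefficients has a node `(x, y)` (a singular point, and `c₄ ≠ 0`), and the slope `t` of a
tangent at the node is in the residue field. -/
def SplitAt (E : WeierstrassCurve F) (w : HeightOneSpectrum (𝓞 F)) : Prop :=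
  ∃ V : WeierstrassCurve (𝓞 F),
    (∃ C : WeierstrassCurve.VariableChange F, C • E = V.map (algebraMap (𝓞 F) F)) ∧
    V.c₄ ∉ w.asIdeal ∧ ∃ x y t : 𝓞 F,
    y ^ 2 + V.a₁ * x * y + V.a₃ * y - (x ^ 3 + V.a₂ * x ^ 2 + V.a₄ * x + V.a₆) ∈ w.asIdeal ∧
    2 * y + V.a₁ * x + V.a₃ ∈ w.asIdeal ∧
    V.a₁ * y - (3 * x ^ 2 + 2 * V.a₂ * x + V.a₄) ∈ w.asIdeal ∧
    t ^ 2 + V.a₁ * t - (V.a₂ + 3 * x) ∈ w.asIdeal

/-- `E` has good or multiplicative reduction at all primes. -/
def Semistable (E : WeierstrassCurve F) : Prop :=
  ∀ w : HeightOneSpectrum (𝓞 F), ∃ V : WeierstrassCurve (𝓞 F),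
    (∃ C : WeierstrassCurve.VariableChange F, C • E = V.map (algebraMap (𝓞 F) F)) ∧
    (V.Δ ∉ w.asIdeal ∨ V.c₄ ∉ w.asIdeal)

/-- The rank of the group `E(F)`. -/
noncomputable def rank (E : WeierstrassCurve F) : ℕ := by
  classical
  exact Module.finrank ℤ E.toAffine.Point

/-- `m + u`: the number of the primes of split multiplicative reduction, plus the number of the
archimedean places. -/
noncomputable def places (E : WeierstrassCurve F) : ℕ :=
  Nat.card {w : HeightOneSpectrum (𝓞 F) // SplitAt E w} + Nat.card (InfinitePlace F)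

/-- The parity conjecture for the semistable curve `E` over `F`. -/
def Parity (E : WeierstrassCurve F) : Prop := (-1 : ℤ) ^ rank E = (-1) ^ places E

end defs

/-- The number of the embeddings of `F` in the algebraic closure of `K` that are fixed by `σ`. -/
noncomputable def fix (K F : Type) [Field K] [Field F] [Algebra K F]
    (σ : Gal(AlgebraicClosure K/K)) : ℕ :=
  Nat.card {i : F →ₐ[K] AlgebraicClosure K // ∀ x, σ (i x) = i x}

/-- A class of degrees: a set of positive integers such that `d * p` belongs to it with `d`, for all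
prime numbers `p` above some bound.  For example the odd numbers, the numbers exactly divisible by
`2 ^ a`, the numbers prime to a given one, the multiples of a given one. -/
def IsClass (D : Set ℕ) : Prop :=
  ∃ p₀ : ℕ, ∀ d ∈ D, ∀ p : ℕ, p.Prime → p₀ < p → d * p ∈ D

section laws
variable {K : Type} [Field K] [NumberField K]

/-- Part 0: for every prime number `p > [K : ℚ] + 1` the constant `p` is an integral combination of the
permutation characters of extensions of `K` without automorphisms, of degree `p` or `p ^ 2`, and the same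
relation holds between the numbers rank + `m` + `u`. -/
def Relation (E : WeierstrassCurve K) : Prop :=
  ∀ p : ℕ, p.Prime → Module.finrank ℚ K + 1 < p →
    ∃ (ι : Type) (_ : Fintype ι) (X : ι → Type) (_ : ∀ j, Field (X j)) (_ : ∀ j, NumberField (X j))
      (_ : ∀ j, Algebra K (X j)) (n : ι → ℤ),
      (∀ j, NoAutomorphisms (X j) ∧
        (Module.finrank K (X j) = p ∨ Module.finrank K (X j) = p ^ 2)) ∧
      (∀ σ : Gal(AlgebraicClosure K/K), ∑ j, n j * (fix K (X j) σ : ℤ) = p) ∧
      ∑ j, n j * (rank (E.map (algebraMap K (X j))) + places (E.map (algebraMap K (X j))) : ℤ) =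
        p * (rank E + places E : ℤ)

/-- Part 1: if the parity conjecture fails for `E/K`, then for every prime number `p > [K : ℚ] + 1` it
fails for `E/X` for some `X` without automorphisms, of degree `p` or `p ^ 2` over `K`. -/
def Spread (E : WeierstrassCurve K) : Prop :=
  ¬ Parity E → ∀ p : ℕ, p.Prime → Module.finrank ℚ K + 1 < p →
    ∃ (X : Type) (_ : Field X) (_ : NumberField X) (_ : Algebra K X), NoAutomorphisms X ∧
      (Module.finrank K X = p ∨ Module.finrank K X = p ^ 2) ∧
      ¬ Parity (E.map (algebraMap K X))

/-- Part 2: in every class of degrees the fields without automorphisms suffice. -/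
def ClassLaw (E : WeierstrassCurve K) : Prop :=
  ∀ D : Set ℕ, IsClass D →
    (∀ (X : Type) [Field X] [NumberField X] [Algebra K X], NoAutomorphisms X →
      Module.finrank K X ∈ D → Parity (E.map (algebraMap K X))) →
    ∀ (F : Type) [Field F] [NumberField F] [Algebra K F], Module.finrank K F ∈ D →
      Parity (E.map (algebraMap K F))

/-- Part 3: the degrees of the fields without automorphisms may in addition be restricted to the
multiples of a number `M`. -/
def DegreeLaw (E : WeierstrassCurve K) : Prop :=
  ∀ M : ℕ, (∀ (X : Type) [Field X] [NumberField X] [Algebra K X], NoAutomorphisms X →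
      M ∣ Module.finrank K X → Parity (E.map (algebraMap K X))) →
    ∀ (F : Type) [Field F] [NumberField F] [Algebra K F],
      Odd (M / M.gcd (Module.finrank K F)) → Parity (E.map (algebraMap K F))

/-- A family of finite extensions of `K` inside the algebraic closure, closed under isomorphisms and
under passing to larger finite extensions. -/
def IsUpwardClosed (𝓕 : Set (IntermediateField K (AlgebraicClosure K))) : Prop :=
  (∀ F ∈ 𝓕, FiniteDimensional K F) ∧
  (∀ F ∈ 𝓕, ∀ F' : IntermediateField K (AlgebraicClosure K), Nonempty (F ≃ₐ[K] F') → F' ∈ 𝓕) ∧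
  ∀ F ∈ 𝓕, ∀ F' : IntermediateField K (AlgebraicClosure K), FiniteDimensional K F' → F ≤ F' → F' ∈ 𝓕

/-- Part 4: families of fields. -/
def FamilyLaw (E : WeierstrassCurve K) : Prop :=
  ∀ 𝓕 : Set (IntermediateField K (AlgebraicClosure K)), IsUpwardClosed 𝓕 →
    (∀ σ : Gal(AlgebraicClosure K/K), ∃ F ∈ 𝓕, Odd (fix K F σ)) →
    (∀ F ∈ 𝓕, NoAutomorphisms F → ∀ [NumberField F], Parity (E.map (algebraMap K F))) →
    Parity E

end laws

theorem dd_eq {F : Type} [Field F] [NumberField F] (E : WeierstrassCurve F) :
    Pool.Agent.Q92.PA.Dd E = rank E + places E := by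
  have h0 : places E = Pool.Agent.Q92.PA.spl E + Pool.Agent.Q92.PA.pl F := rfl
  rw [h0]
  change rank E + Pool.Agent.Q92.PA.pl F + Pool.Agent.Q92.PA.spl E = _
  ring

theorem parity_iff {F : Type} [Field F] [NumberField F] (E : WeierstrassCurve F) :
    Parity E ↔ Even (Pool.Agent.Q92.PA.Dd E) := by
  rw [dd_eq]
  unfold Parity
  have h2 : ((-1 : ℤ) ^ rank E = (-1) ^ places E) ↔ (-1 : ℤ) ^ (rank E + places E) = 1 := by
    rw [pow_add]
    rcases neg_one_pow_eq_or ℤ (rank E) with h | h <;>
    rcases neg_one_pow_eq_or ℤ (places E) with h' | h' <;> rw [h, h'] <;> norm_num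
  rw [h2, neg_one_pow_eq_one_iff_even (by norm_num)]

theorem parity_iff' {F : Type} [Field F] [NumberField F] (E : WeierstrassCurve F) :
    Parity E ↔ (2 : ℤ) ∣ 1 * (Pool.Agent.Q92.PA.Dd E : ℤ) := by
  rw [parity_iff, one_mul, even_iff_two_dvd, ← Int.natCast_dvd_natCast]
  rfl

theorem fix_eq {K F : Type} [Field K] [NumberField K] [Field F] [NumberField F] [Algebra K F]
    (σ : Gal(AlgebraicClosure K/K)) : fix K F σ = Pool.Agent.W353.NF.fixn K F σ := by
  unfold fix Pool.Agent.W353.NF.fixn
  refine Nat.card_congr (Equiv.subtypeEquivRight fun i => ?_)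
  rw [Pool.Agent.W353.NF.act_apply]
  constructor
  · intro h
    exact AlgHom.ext h
  · intro h x
    exact DFunLike.congr_fun h x

theorem not_two_dvd {m : ℕ} (h : Odd m) : ¬ (2 : ℤ) ∣ (m : ℤ) := by
  intro h2
  have h3 : 2 ∣ m := by exact_mod_cast h2
  exact (Nat.not_even_iff_odd.2 h) (even_iff_two_dvd.2 h3)

section
variable {K : Type} [Field K] [NumberField K] {E : WeierstrassCurve K}

theorem part2 (hE : E.IsElliptic) (hs : Semistable E) : ClassLaw E := by
  have hs' : Pool.Agent.Q92.PA.Semistable E := hs
  rintro D ⟨p₀, hD⟩ h F _ _ _ hF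
  rw [parity_iff']
  exact Pool.Agent.Q5.RX.rigid_degree_law (Pool.Agent.Q92.PA.par_law hE hs') hD
    (fun X _ _ _ hr hd => (parity_iff' _).1 (h X hr hd)) F hF

theorem part3 (hE : E.IsElliptic) (hs : Semistable E) : DegreeLaw E := by
  have hs' : Pool.Agent.Q92.PA.Semistable E := hs
  intro M h F _ _ _ hM
  rw [parity_iff]
  exact Pool.Agent.Q92.PA.even_of_odd (not_two_dvd hM)
    (Pool.Agent.Q5.RF.gen_rigid_power_law (Pool.Agent.Q92.PA.par_law hE hs') (M := M)
      (fun F' _ _ _ hr hd => (parity_iff' _).1 (h F' hr hd)) F)

theorem part1 (hE : E.IsElliptic) (hs : Semistable E) : Spread E := by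
  have hs' : Pool.Agent.Q92.PA.Semistable E := hs
  have hid : E.map (algebraMap K K) = E := by
    rw [Algebra.algebraMap_self, WeierstrassCurve.map_id]
  intro hnot p hp hlt
  by_contra hcon
  push Not at hcon
  apply hnot
  have h1 := Pool.Agent.Q5.RX.prime_of_rigid (Pool.Agent.Q92.PA.par_law hE hs') K hp hlt
    (fun X _ _ iKX iKX' hst hX hdeg => by
      have e : iKX' = iKX := Algebra.algebra_ext _ _ fun r =>
        ((@IsScalarTower.algebraMap_apply K K X _ _ _ _ iKX' iKX hst r)).symm
      subst e
      exact (parity_iff' _).1 (hcon X _ inferInstance _ hX hdeg))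
  rw [hid] at h1
  have hp2 : p ≠ 2 := by
    have : 0 < Module.finrank ℚ K := Module.finrank_pos
    omega
  rw [parity_iff]
  exact Pool.Agent.Q92.PA.even_of_odd (not_two_dvd (hp.odd_of_ne_two hp2)) h1

end

/-- **The parity conjecture: the number fields without automorphisms suffice.**  A. Let `E` be a
semistable elliptic curve over a number field `K`.
0. For every prime number `p > [K : ℚ] + 1` there are extensions `X_j/K` without automorphisms, of degree
`p` or `p ^ 2`, and integers `n_j` such that `∑ n_j · 1_{X_j} = p`, and the same relation holds for the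
numbers rank + `m` + `u`.
1. If the parity conjecture fails for `E/K`, then for every prime number `p > [K : ℚ] + 1` it fails for
`E/X` for some `X` without automorphisms, `[X : K]` equal to `p` or `p ^ 2`.
2. Let `D` be closed under multiplication by the large prime numbers.  If it holds for `E/X` for all `X/K`
without automorphisms with `[X : K] ∈ D`, it holds for `E/F` for all `F/K` with `[F : K] ∈ D`.  For
example the fields without automorphisms of odd degree suffice for all fields of odd degree.
3. If it holds for `E/X` for all `X/K` without automorphisms with `M ∣ [X : K]`, it holds for all `F/K`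
such that `M / gcd(M, [F : K])` is odd.
4. Let `𝓕` be a family of finite extensions of `K`, closed under isomorphisms and larger fields, such
that every `σ` fixes an odd number of the embeddings of some `F ∈ 𝓕`.  If it holds for `E/F` for all
`F ∈ 𝓕` without automorphisms, it holds for `E/K`.
B. Let `M` be odd.  If it holds for all semistable elliptic curves over all number fields without
automorphisms of degree divisible by `M`, it holds for all semistable elliptic curves over all number
fields. -/
theorem result :
    (∀ (K : Type) [Field K] [NumberField K] (E : WeierstrassCurve K), E.IsElliptic → Semistable E →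
      Relation E ∧ Spread E ∧ ClassLaw E ∧ DegreeLaw E ∧ FamilyLaw E) ∧
    (∀ M : ℕ, Odd M →
      (∀ (X : Type) [Field X] [NumberField X], NoAutomorphisms X → M ∣ Module.finrank ℚ X →
        ∀ E : WeierstrassCurve X, E.IsElliptic → Semistable E → Parity E) →
      ∀ (F : Type) [Field F] [NumberField F] (E : WeierstrassCurve F), E.IsElliptic →
        Semistable E → Parity E) := by
  refine ⟨?_, ?_⟩
  swap
  · intro M hM h F _ _ E hE hs
    have hs' : Pool.Agent.Q92.PA.Semistable E := hs
    have h1 := part3 hE hs M (fun F' _ _ _ hr hd => h F' hr (by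
      rw [← Module.finrank_mul_finrank ℚ F F']
      exact hd.mul_left _) _ inferInstance hs'.map) F (by
      rw [Module.finrank_self, Nat.gcd_one_right, Nat.div_one]
      exact hM)
    rw [Algebra.algebraMap_self, WeierstrassCurve.map_id] at h1
    exact h1
  intro K _ _ E hE hs
  have hs' : Pool.Agent.Q92.PA.Semistable E := hs
  refine ⟨?_, part1 hE hs, part2 hE hs, part3 hE hs, ?_⟩
  · intro p hp hlt
    have hpf : Fact p.Prime := ⟨hp⟩
    obtain ⟨ι, iι, Y, n, hdeg, hrig, hrel⟩ := Pool.Agent.Q5.RF.exists_rigid_relation K p hlt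
    refine ⟨ι, iι, fun j => (Y j).F, fun j => inferInstance, fun j => inferInstance,
      fun j => inferInstance, n, fun j => ⟨hrig j, hdeg j⟩, fun σ => ?_, ?_⟩
    · rw [← hrel σ]
      refine Finset.sum_congr rfl fun j _ => ?_
      rw [fix_eq]
    · have h1 := Pool.Agent.Q92.PA.Dd_rel (Y := Y) (n := n) (m := (p : ℤ)) hrel hE hs'
      have h2 : ∀ (F : Type) [Field F] [NumberField F] (E : WeierstrassCurve F),
          (rank E + places E : ℤ) = (Pool.Agent.Q92.PA.Dd E : ℤ) := by
        intro F _ _ E
        rw [dd_eq]
        push_cast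
        rfl
      rw [h2, ← h1]
      exact Finset.sum_congr rfl fun j _ => by rw [h2]
  · rintro 𝓕 ⟨h1, h2, h3⟩ h4 h5
    rw [parity_iff]
    refine Pool.Agent.Q92.PA.par_family hE hs' (𝓕 := 𝓕) ⟨h1, h2, fun F hF F' hF' => ?_,
      fun σ => ?_⟩ (fun F hF hnf => ?_)
    · have hfd := h1 F hF
      have hfd' := h1 F' hF'
      exact h3 F hF _ inferInstance le_sup_left
    · obtain ⟨F, hF, hodd⟩ := h4 σ
      have hfd := h1 F hF
      have hnf : NumberField F := NumberField.of_module_finite K F
      refine ⟨F, hF, ?_⟩
      rw [← fix_eq]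
      exact fun h => Nat.not_even_iff_odd.2 hodd (even_iff_two_dvd.2 h)
    · rw [← parity_iff, parity_iff']
      refine Pool.Agent.Q5.RW.one_of_rigid (Pool.Agent.Q92.PA.par_law hE hs') F
        fun X _ _ _ _ _ hX => ?_
      obtain ⟨X', hle, hfd, ⟨e⟩⟩ := Pool.Agent.Q5.RW.exists_inside F X
      have hnf' : NumberField X' := NumberField.of_module_finite K _
      refine Pool.Agent.Q5.RW.isLaw_iso (Pool.Agent.Q92.PA.par_law hE hs') e
        ((parity_iff' _).1 (@h5 X' (h3 F hF X' hfd hle) ?_ hnf'))
      intro τ x
      have h8 := hX ((e.toRingEquiv.trans τ).trans e.symm.toRingEquiv) (e.symm x)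
      change e.symm (τ (e (e.symm x))) = e.symm x at h8
      rw [e.apply_symm_apply] at h8
      exact e.symm.injective h8

end Pool.Agent.Results.MP_02f36d_nt.RigidFields
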