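import Pool.Agent.Q155.BP.Avg
import Pool.Agent.Q155.BP.Rnd

/-!
# Unramified extensions of real quadratic fields without new points: rank, order and parity of the twists of `X_0(49)`

`E_m : y² = x³ - 2835 m² x - 71442 m³` is the quadratic twist by `m` of the curve `X_0(49)`; the class consists of the
squarefree positive integers whose prime factors are `1` modulo `4`. A member `m` of the class is GOOD if `E_m(ℚ)` is finite,
`Ш(E_m/ℚ)[2] = 0` and `L(E_m, 1) ≠ 0`. For a positive integer `D` let `m = part D` be the product of its prime factors `1`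
modulo `4`, `F = ℚ(√m)`, and let `d = (d_1, …, d_n)` be a tuple of divisors of `m`. The field `K = F(√d_1, …, √d_n)` is contained
in the genus field `ℚ(√p : p ∣ m)` of `F`; every intermediate field of the genus field and `F` is of this form.

* (0) `K / F` is unramified at all places, of degree `2 ^ n` if `m, d_1, …, d_n` are independent modulo squares.
* (1) GROWTH, for every `N` of the class (nothing is assumed about `E_N`). The curve `E_N` over `K` has `2 ^ (n + 1) - 2` parts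
  which are new with respect to `F`: the twists by `N ∏_{i ∈ T} d_i` and `N m ∏_{i ∈ T} d_i`, `T ≠ ∅`. The rank of `E_N(F)` is the
  sum of the ranks of `E_N` and of its twist by `m` over `ℚ`; the rank of `E_N(K)` is at least the rank of `E_N(F)`, and at most this
  plus the sum of the ranks of the new parts. The L-functions are entire and the order over `K` at `s = 1` is the order
  over `F` plus the sum of the orders of the new parts.
* (2) STABILITY. If all the new parts are good then rank and order over `K` and over `F` are the same; so the parity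
  conjecture (rank and order of vanishing have the same parity) for `E_N` over `K` is EQUIVALENT to the parity
  conjecture for `E_N` over `F`, and the same for the conjecture of Birch and Swinnerton-Dyer (rank part). If also `E_N` and the
  twist by `m` are good, then `E_N(K)` is finite, `L(E_N/K, 1) ≠ 0`, and `Ш(E_N/K)[2^∞]` is finite and killed by `2 ^ (n + 1)`.
* (3) EXACT LAWS. There is ONE set `S` of positive integers, of NATURAL DENSITY `1`, and of relative density `1` also in the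
  class, such that for all `n`, `ε > 0` and all large `D` in `S`, over the `2 ^ (n ω)` tuples `d` of divisors of `m = part D`,
  `ω` the number of the prime factors of `m`, with `κ = ∏ (1 - 2 ^ (-2 i - 1)) = 0.4194…`:
  the share of the dependent tuples is at most `ε`;
  for every `N` of the class the conclusion of (2) holds for a share of at least `κ ^ (2 ^ (n + 1) - 2) - ε`;
  for every set `Q` of new parts (the base `N` may even depend on the new part) the share of the `d` for which exactly the new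
  parts in `Q` are good is within `ε` of `κ ^ #Q (1 - κ) ^ (2 ^ (n + 1) - 2 - #Q)`;
  the share of the `d` for which the frequency of the good new parts differs from `κ` by `η` or more is at most
  `2 exp (- η² (2 ^ (n + 1) - 2) / 4) + ε` (`n > 0`).
* (4) RANDOM BASE. The same exact law holds for ALL the `2 ^ (n + 1)` parts of the twist `E_c` over `K`, where `(c, d)` runs
  over the `(n + 1)`-tuples of divisors of `m`. So for a share of at least `κ ^ (2 ^ (n + 1)) - ε` of them `E_c(K)` is finite,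
  `L(E_c/K, 1) ≠ 0` and `Ш(E_c/K)[2^∞]` is finite and killed by `2 ^ (n + 1)`.
* (5) MEAN GROWTH. For every `N` of the class and all large `D` in `S`, for ALL `n`: the mean over the tuples `d` of the sum of
  the ranks of the new parts is at most `1.53 (2 ^ (n + 1) - 2)`.

The law is a theorem about sets of colours (`Pool/Agent/Q155/BP`): the new parts with `m` are the complements of the parts
without `m`, so they are not linear forms in `d`. It is a port of the project LP of helper283 (helpers 98, 162, 187, 203, 222)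
from linear forms to arbitrary sets of colours.
-/

set_option autoImplicit false

open scoped Classical

namespace Pool.Agent.Results.MP_02f36d_nt.UnramifiedExtensions

open Finset Filter NumberField IsDedekindDomain

/-- coefficients of the twist `E_D : y² = x³ + A D x + B D` of `X_0(49)` -/
def A (D : ℤ) : ℤ := -2835 * D ^ 2

/-- coefficients of the twist `E_D : y² = x³ + A D x + B D` of `X_0(49)` -/
def B (D : ℤ) : ℤ := -71442 * D ^ 3

/-- the curve `E_D` over the field `K` -/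
def E (K : Type) [Field K] (D : ℤ) : WeierstrassCurve K :=
  { a₁ := 0, a₂ := 0, a₃ := 0, a₄ := (A D : K), a₆ := (B D : K) }

/-- the group `E_D(K)` is finitely generated -/
def FinGen (K : Type) [Field K] (D : ℤ) : Prop := Module.Finite ℤ (E K D).toAffine.Point

/-- the rank of `E_D(K)` -/
noncomputable def rank (K : Type) [Field K] (D : ℤ) : ℕ := Module.finrank ℤ (E K D).toAffine.Point

/-- the number `q_v` of elements of the residue field of a finite place `v` of `K` -/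
noncomputable def qv (K : Type) [Field K] (v : HeightOneSpectrum (𝓞 K)) : ℕ :=
  Nat.card (𝓞 K ⧸ v.asIdeal)

/-- `a_v = q_v + 1 - #E(k_v)`, that is `q_v` minus the number of the affine points over `k_v` -/
noncomputable def av (K : Type) [Field K] (M : ℤ) (v : HeightOneSpectrum (𝓞 K)) : ℤ :=
  (qv K v : ℤ) - Nat.card {z : (𝓞 K ⧸ v.asIdeal) × (𝓞 K ⧸ v.asIdeal) //
    z.2 ^ 2 = z.1 ^ 3 + (A M : 𝓞 K ⧸ v.asIdeal) * z.1 + (B M : 𝓞 K ⧸ v.asIdeal)}

/-- `L` is entire and is, for `Re s > 3/2`, the L-function of `E_M` over `K` without the Euler factors at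
the places `v ∣ 42 M m` (they do not vanish at `s = 1`) -/
def IsL (K : Type) [Field K] (M m : ℤ) (L : ℂ → ℂ) : Prop :=
  Differentiable ℂ L ∧ ∀ s : ℂ, (3 : ℝ) / 2 < s.re →
    HasProd (fun v : HeightOneSpectrum (𝓞 K) =>
      if ((42 * M * m : ℤ) : 𝓞 K) ∈ v.asIdeal then 1 else
        (1 - (av K M v : ℂ) * (qv K v : ℂ) ^ (-s) + (qv K v : ℂ) ^ (1 - 2 * s))⁻¹) (L s)

/-- the class: squarefree, all prime factors `1` modulo `4` -/
def Class (D : ℕ) : Prop := Squarefree D ∧ ∀ p : ℕ, p.Prime → p ∣ D → p % 4 = 1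

/-- `E_D(ℚ)` is finite, `Ш(E_D/ℚ)` has no element of order two, and `L(E_D, 1) ≠ 0` -/
def Good (D : ℕ) : Prop :=
  Finite (E ℚ D).toAffine.Point ∧ (∀ x : Pool.Agent.TH841.SH.D.Sha (E ℚ D), 2 • x = 0 → x = 0) ∧
    ∀ G : ℂ → ℂ, IsL ℚ D 1 G → G 1 ≠ 0

/-- the number `κ = (1 - 1/2) (1 - 1/8) (1 - 1/32) ⋯` -/
noncomputable def κ : ℝ := ∏' i : ℕ, (1 - (1 / 2 : ℝ) ^ (2 * i + 1))

/-- the squarefree part of `n`: the squarefree `s` such that `n / s` is a square -/
def squarefreePart (n : ℕ) : ℕ := ∏ p ∈ n.primeFactors.filter (fun p => n.factorization p % 2 = 1), p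

/-- the product of the prime factors `1` modulo `4` of `D` -/
def part (D : ℕ) : ℕ := ∏ p ∈ D.primeFactors.filter (fun p => p % 4 = 1), p

/-- the `n`-tuples of divisors of `m` -/
noncomputable def tuples (n m : ℕ) : Finset (Fin n → ℕ) := Fintype.piFinset fun _ : Fin n => m.divisors

/-- the twist of `E_N` for the pair `y = (T, b)`: by the squarefree part of `N m^b ∏_{i ∈ T} d_i` (`b = 0, 1`). It is a
NEW PART with respect to `F = ℚ(√m)` if `T` is not empty. -/
def twist {n : ℕ} (N m : ℕ) (d : Fin n → ℕ) (y : Finset (Fin n) × Bool) : ℕ :=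
  squarefreePart (N * (m ^ (if y.2 then 1 else 0) * ∏ i ∈ y.1, d i))

/-- the new parts -/
def newParts (n : ℕ) : Finset (Finset (Fin n) × Bool) := Finset.univ.filter fun y => y.1.Nonempty

/-- `m, d_1, …, d_n` are independent modulo squares -/
def Independent {n : ℕ} (m : ℕ) (d : Fin n → ℕ) : Prop :=
  ∀ (T : Finset (Fin n)) (b : Bool), (T.Nonempty ∨ b = true) →
    ¬ IsSquare (m ^ (if b then 1 else 0) * ∏ i ∈ T, d i)

/-- `F = ℚ(√m)` and `K = F(√d_1, …, √d_n)` -/
def IsTower {n : ℕ} (m : ℕ) (d : Fin n → ℕ) (F K : Type) [Field F] [NumberField F] [Field K]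
    [NumberField K] [Algebra F K] : Prop :=
  (∃ x : F, x ^ 2 = (m : F) ∧ IntermediateField.adjoin ℚ {x} = ⊤) ∧
    ∃ y : Fin n → K, (∀ i, y i ^ 2 = (d i : K)) ∧ IntermediateField.adjoin F (Set.range y) = ⊤

/-- `K / F` is unramified at all finite places, and all the infinite places of `K` are real -/
def Unramified (F K : Type) [Field F] [NumberField F] [Field K] [NumberField K] [Algebra F K] : Prop :=
  (∀ (P : Ideal (𝓞 K)) [P.IsPrime], Algebra.IsUnramifiedAt (𝓞 F) P) ∧ IsTotallyReal K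

/-- the degrees, the ranks and the orders of vanishing over `F` and over `K` -/
def Growth {n : ℕ} (N m : ℕ) (d : Fin n → ℕ) (F K : Type) [Field F] [NumberField F] [Field K]
    [NumberField K] [Algebra F K] : Prop :=
  Module.finrank ℚ F = 2 ∧ Module.finrank F K = 2 ^ n ∧ FinGen F N ∧ FinGen K N ∧
  rank F N = rank ℚ N + rank ℚ (twist N m d (∅, true)) ∧
  rank F N ≤ rank K N ∧ rank K N ≤ rank F N + ∑ y ∈ newParts n, rank ℚ (twist N m d y) ∧
  (∃ L₀ L : ℂ → ℂ, IsL F N m L₀ ∧ IsL K N m L) ∧ (∀ y, ∃ G : ℂ → ℂ, IsL ℚ (twist N m d y) 1 G) ∧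
  ∀ (L₀ L : ℂ → ℂ) (G : Finset (Fin n) × Bool → ℂ → ℂ), IsL F N m L₀ → IsL K N m L →
    (∀ y, IsL ℚ (twist N m d y) 1 (G y)) →
    analyticOrderAt L₀ 1 = analyticOrderAt (G (∅, false)) 1 + analyticOrderAt (G (∅, true)) 1 ∧
    analyticOrderAt L 1 = analyticOrderAt L₀ 1 + ∑ y ∈ newParts n, analyticOrderAt (G y) 1

/-- the parity conjecture for `E_N` over `K`: rank and order have the same parity (`m`: see `IsL`) -/
def ParityConj (N m : ℕ) (K : Type) [Field K] : Prop :=
  ∀ L : ℂ → ℂ, IsL K N m L → ∃ r : ℕ, analyticOrderAt L 1 = (r : ℕ∞) ∧ (Even r ↔ Even (rank K N))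

/-- the conjecture of Birch and Swinnerton-Dyer, rank part, for `E_N` over `K` (`m`: see `IsL`) -/
def RankConj (N m : ℕ) (K : Type) [Field K] : Prop :=
  ∀ L : ℂ → ℂ, IsL K N m L → analyticOrderAt L 1 = (rank K N : ℕ∞)

/-- `E_N(K)` is finite, `L(E_N/K, 1) ≠ 0`, and `Ш(E_N/K)[2^∞]` is finite and killed by `2 ^ (n + 1)`. Here `Sha W` is the group
of the continuous cocycles `Gal(K̄/K) → W(K̄)` which are coboundaries at all places of `K`, modulo the coboundaries. -/
def Zero (n N m : ℕ) (K : Type) [Field K] [NumberField K] : Prop :=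
  Finite (E K N).toAffine.Point ∧ (∀ L : ℂ → ℂ, IsL K N m L → L 1 ≠ 0) ∧
    {x : Pool.Agent.TH841.NF.D.Sha (E K N) | ∃ t : ℕ, 2 ^ t • x = 0}.Finite ∧
    ∀ (x : Pool.Agent.TH841.NF.D.Sha (E K N)) (t : ℕ), 2 ^ t • x = 0 → 2 ^ (n + 1) • x = 0

/-- Stability: over `K` and over `F` the curve `E_N` has the same rank and the same order, the conjectures over `K` and
over `F` are equivalent; if `E_N` and the twist by `m` are good, then rank and order are `0`, see `Zero`. -/
def Stable {n : ℕ} (N m : ℕ) (d : Fin n → ℕ) (F K : Type) [Field F] [NumberField F] [Field K]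
    [NumberField K] [Algebra F K] : Prop :=
  rank K N = rank F N ∧
  (∀ L₀ L : ℂ → ℂ, IsL F N m L₀ → IsL K N m L → analyticOrderAt L 1 = analyticOrderAt L₀ 1) ∧
  (ParityConj N m K ↔ ParityConj N m F) ∧ (RankConj N m K ↔ RankConj N m F) ∧
  (Good N → Good (twist N m d (∅, true)) → Zero n N m K)

/-- all the new parts are good -/
def NoNewPart {n : ℕ} (N m : ℕ) (d : Fin n → ℕ) : Prop := ∀ y ∈ newParts n, Good (twist N m d y)

/-- the number of the good new parts (with a base `N y` for each part `y`) -/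
noncomputable def number {n : ℕ} (N : Finset (Fin n) × Bool → ℕ) (m : ℕ) (d : Fin n → ℕ) : ℕ :=
  ((newParts n).filter fun y => Good (twist (N y) m d y)).card

/-- the share of the `n`-tuples of divisors of `m` with the property `P` -/
noncomputable def share (n m : ℕ) (P : (Fin n → ℕ) → Prop) : ℝ :=
  (((tuples n m).filter P).card : ℝ) / (tuples n m).card

/-- the number of the `D ≤ X` with the property `P` -/
noncomputable def count (P : ℕ → Prop) (X : ℕ) : ℕ := ((Finset.Icc 1 X).filter P).card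

section proof

open Q155.BP
open Q283.LP (sqn prt lln_gen cE cE_congr nJ fcc)
open Q283.GW (C4 ρ49)
open Q283.GM (rk)
open Q283.GS (al)
open Q283.XF (nf)
open Q283.J2 (RZ49)
open Q155.NL (Cl Alm)
open Pool.Agent.Y19.QT (IsLFun IsLFunK)
open _root_.Q155.KG (cr)

theorem class_iff (D : ℕ) : Class D ↔ C4 D := by
  unfold Class C4 Q283.GW.CF
  constructor
  · rintro ⟨h1, h2⟩
    exact ⟨h1, fun p hp => ⟨Nat.prime_of_mem_primeFactors hp,
      h2 p (Nat.prime_of_mem_primeFactors hp) (Nat.dvd_of_mem_primeFactors hp)⟩⟩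
  · rintro ⟨h1, h2⟩
    exact ⟨h1, fun p hp hd => (h2 p (Nat.mem_primeFactors.2 ⟨hp, hd, h1.ne_zero⟩)).2⟩

theorem class_cl (D : ℕ) : Class D ↔ Cl ρ49.Φ D := by
  rw [class_iff, Q155.NL.cl_iff]

/-- the places of the L-function -/
theorem isL_iff (K : Type) [Field K] [NumberField K] (M m m' : ℤ) (h1 : m ∣ m') {k : ℕ} (h2 : m' ∣ m ^ k)
    (F : ℂ → ℂ) : IsL K M m F ↔ Y19.QT.IsLFunK K (-2835 * M ^ 2) (-71442 * M ^ 3) m' F := by
  have key : ∀ v : HeightOneSpectrum (𝓞 K), (((42 * M * m : ℤ) : 𝓞 K) ∈ v.asIdeal ↔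
      ((2 * (4 * (-2835 * M ^ 2) ^ 3 + 27 * (-71442 * M ^ 3) ^ 2) * m' : ℤ) : 𝓞 K) ∈
        v.asIdeal) := by
    intro v
    have := v.isPrime
    constructor
    · intro h3
      obtain ⟨z, hz⟩ : ∃ z : ℤ, 2 * (4 * (-2835 * M ^ 2) ^ 3 +
          27 * (-71442 * M ^ 3) ^ 2) * m' = z * (42 * M * m) := by
        obtain ⟨w, hw⟩ := h1
        exact ⟨2 ^ 8 * 3 ^ 11 * 7 ^ 2 * M ^ 5 * w, by rw [hw]; ring⟩
      rw [hz, Int.cast_mul]
      exact Ideal.mul_mem_left _ _ h3
    · intro h3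
      obtain ⟨z, hz⟩ : ∃ z : ℤ, (42 * M * m) ^ (15 + k) =
          z * (2 * (4 * (-2835 * M ^ 2) ^ 3 + 27 * (-71442 * M ^ 3) ^ 2) * m') := by
        obtain ⟨w, hw⟩ := h2
        refine ⟨2 ^ 6 * 3 ^ 3 * 7 ^ 12 * M ^ 9 * m ^ 15 * (42 * M) ^ k * w, ?_⟩
        have e : (42 * M * m) ^ (15 + k) = (42 * M) ^ 15 * m ^ 15 * (42 * M) ^ k * m ^ k := by
          rw [pow_add, mul_pow, mul_pow (42 * M) m k]
          ring
        rw [e, hw]
        ring
      refine Ideal.IsPrime.mem_of_pow_mem this (15 + k) ?_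
      rw [← Int.cast_pow, hz, Int.cast_mul]
      exact Ideal.mul_mem_left _ _ h3
  have ha : ∀ v : HeightOneSpectrum (𝓞 K), av K M v =
      Y19.QT.av K (-2835 * M ^ 2) (-71442 * M ^ 3) v := by
    intro v
    unfold av A B
    rfl
  unfold IsL Y19.QT.IsLFunK
  refine and_congr Iff.rfl (forall_congr' fun s => forall_congr' fun _ => ?_)
  refine Iff.of_eq (congrArg (fun f => HasProd f (F s)) (funext fun v => ?_))
  by_cases h : ((42 * M * m : ℤ) : 𝓞 K) ∈ v.asIdeal
  · rw [if_pos h, if_pos ((key v).1 h)]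
  · rw [if_neg h, if_neg (fun h' => h ((key v).2 h')), ha]
    rfl

theorem isL_iff' (K : Type) [Field K] [NumberField K] (M m : ℤ) (F : ℂ → ℂ) :
    IsL K M m F ↔ Y19.QT.IsLFunK K (-2835 * M ^ 2) (-71442 * M ^ 3) m F :=
  isL_iff K M m m dvd_rfl (k := 1) (by rw [pow_one]) F

theorem isL_unique {K : Type} [Field K] [NumberField K] {M m : ℤ} {F G : ℂ → ℂ} (hF : IsL K M m F)
    (hG : IsL K M m G) : F = G :=
  Y687.MQ.isLFunK_unique ((isL_iff' _ _ _ _).1 hF) ((isL_iff' _ _ _ _).1 hG)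

/-- the function over `ℚ` as a number field -/
theorem lift_Q {D : ℕ} (hD : D ≠ 0) {G : ℂ → ℂ}
    (hG : IsLFun (-2835 * (D : ℤ) ^ 2) (-71442 * (D : ℤ) ^ 3) G) :
    ∃ F : ℂ → ℂ, IsL ℚ D 1 F ∧ analyticOrderAt F 1 = analyticOrderAt G 1 := by
  have hab := _root_.Q155.KG.disc49 (M := (D : ℤ)) (by exact_mod_cast hD)
  obtain ⟨F, h1, h2⟩ := Pool.Agent.Y73.QMQ1.MQ1 _ _ hab 0 (fun i => i.elim0)
    (fun T hT => by obtain ⟨i, -⟩ := hT; exact i.elim0) (fun _ => G) (fun T => by
      have hT : T = ∅ := Finset.eq_empty_of_isEmpty T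
      rw [hT, Finset.prod_empty, one_pow, one_pow, mul_one, mul_one]
      exact hG) ℚ (fun i => i.elim0) (fun i => i.elim0) (by
      rw [eq_top_iff]
      intro z _
      have := (IntermediateField.adjoin ℚ (Set.range fun i : Fin 0 => (i.elim0 : ℚ))).algebraMap_mem z
      exact this)
  refine ⟨F, (isL_iff' _ _ _ _).2 ?_, ?_⟩
  · rwa [Finset.univ_eq_empty, Finset.prod_empty] at h1
  · rw [h2 1 (by norm_num), Finset.sum_const, Finset.card_univ, Fintype.card_finset, Fintype.card_fin,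
      pow_zero, one_nsmul]

theorem order_Q {D : ℕ} (hD : D ≠ 0) {F G : ℂ → ℂ} (hF : IsL ℚ D 1 F)
    (hG : IsLFun (-2835 * (D : ℤ) ^ 2) (-71442 * (D : ℤ) ^ 3) G) :
    analyticOrderAt F 1 = analyticOrderAt G 1 := by
  obtain ⟨F', h1, h2⟩ := lift_Q hD hG
  rw [isL_unique hF h1, h2]

theorem rz_eq (D : ℤ) : (Finite (E ℚ D).toAffine.Point ∧
    ∀ x : Pool.Agent.TH841.SH.D.Sha (E ℚ D), 2 • x = 0 → x = 0) ↔ RZ49 D := by
  unfold RZ49
  refine and_congr Iff.rfl (forall_congr' fun x => ?_)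
  rw [two_nsmul]
  rfl

theorem good_iff {D : ℕ} (hD : C4 D) : Good D ↔ cr D = 0 := by
  have h0 : D ≠ 0 := hD.1.ne_zero
  have h1 : RZ49 (D : ℤ) ↔ cr D = 0 := by
    rw [hD.eq]
    exact Q283.GW.rz_CF hD.2
  constructor
  · rintro ⟨h2, h3, -⟩
    exact h1.1 ((rz_eq _).1 ⟨h2, h3⟩)
  · intro h2
    obtain ⟨h3, h4⟩ := (rz_eq _).2 (h1.2 h2)
    refine ⟨h3, h4, fun F hF => ?_⟩
    · obtain ⟨⟨G, hG, hG1⟩, -⟩ := Q283.GW.zb_CF hD.2 h2
      rw [← hD.eq] at hG
      have h5 := order_Q h0 hF hG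
      rw [hG1] at h5
      exact (hF.1.analyticAt 1).analyticOrderAt_eq_zero.1 h5

theorem rank_eq (K : Type) [Field K] (D : ℤ) :
    rank K D = Pool.Agent.Y19.QT.rkK K (-2835 * D ^ 2) (-71442 * D ^ 3) := rfl

theorem rank_Q (D : ℤ) : rank ℚ D = r49 D := by
  have key : ∀ i j : DecidableEq ℚ,
      (letI := i; Module.finrank ℤ (E ℚ D).toAffine.Point) =
        (letI := j; Module.finrank ℤ (E ℚ D).toAffine.Point) := by
    intro i j
    cases Subsingleton.elim i j
    rfl
  exact key _ _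

theorem twist_eq {n : ℕ} (N m : ℕ) (d : Fin n → ℕ) (y : Finset (Fin n) × Bool) :
    twist N m d y = sqn (fm N m y d) := rfl

/-- the rank of a twist by a number and by its squarefree part -/
theorem r49_sq {z : ℕ} (hz : z ≠ 0) (hC : C4 (sqn z)) : r49 z = rank ℚ (sqn z : ℕ) := by
  obtain ⟨c, hc, h⟩ := Q283.LP.sqn_spec hz
  have h2 := rQ_scale (a := -2835) (b := -71442) (s := (sqn z : ℤ)) (k := (c : ℤ)) d49
    (by exact_mod_cast hC.1.ne_zero) (by exact_mod_cast hc)
  have h3 : ((z : ℕ) : ℤ) = (sqn z : ℤ) * (c : ℤ) ^ 2 := by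
    have := congrArg (fun w : ℕ => (w : ℤ)) h
    push_cast at this
    exact this
  rw [rank_Q]
  unfold r49
  rw [h3, h2]

section
variable {n N m : ℕ} {d : Fin n → ℕ} (hN : C4 N) (hm : C4 m) (hd : ∀ i, d i ∣ m)

include hN hm hd in
theorem good_tw (y : Finset (Fin n) × Bool) : Good (twist N m d y) ↔ cr (sqn (fm N m y d)) = 0 :=
  good_iff (fm_C4 hN hm hd y).2

include hN hm hd in
theorem twist_one : twist N m d (∅, false) = N := by
  rw [twist_eq, fm_one, mul_one, Q283.LP.sqn_of_sqf hN.1]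

include hm hd in
/-- the L-function over `K` -/
theorem isL_K (M : ℤ) (K : Type) [Field K] [NumberField K] (L : ℂ → ℂ) :
    IsL K M m L ↔ Y19.QT.IsLFunK K (-2835 * M ^ 2) (-71442 * M ^ 3) (∏ i, (cns m d i : ℤ)) L := by
  have h1 : ∏ i, (cns m d i : ℤ) = (m : ℤ) * ((∏ i, d i : ℕ) : ℤ) := by
    rw [Fin.prod_univ_succ]
    push_cast
    rfl
  refine isL_iff K M m _ ?_ (k := 1 + n) ?_ L
  · rw [h1]
    exact Dvd.intro _ rfl
  · rw [h1, pow_add, pow_one]
    refine mul_dvd_mul_left _ ?_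
    have h2 : ∏ i, d i ∣ m ^ n := by
      have h3 := Finset.prod_dvd_prod_of_dvd d (fun _ : Fin n => m) (s := Finset.univ)
        fun i _ => hd i
      rwa [Finset.prod_const, Finset.card_univ, Fintype.card_fin] at h3
    exact_mod_cast h2

/-- the sum over the new parts -/
theorem sum_new {α : Type} [AddCommMonoid α] (g : Finset (Fin n) × Bool → α) :
    ∑ y ∈ newParts n, g y = ∑ p : Pa n, g p.1 := by
  unfold newParts
  exact Finset.sum_subtype _ (fun p => by simp) _

include hN hm hd in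
/-- the L-functions of the twists by the values of the forms -/
theorem lfun_fm (y : Finset (Fin n) × Bool) {G : ℂ → ℂ} (hG : IsL ℚ (twist N m d y) 1 G) :
    ∃ H : ℂ → ℂ, IsLFun (-2835 * ((fm N m y d : ℕ) : ℤ) ^ 2) (-71442 * ((fm N m y d : ℕ) : ℤ) ^ 3) H ∧
      analyticOrderAt H 1 = analyticOrderAt G 1 := by
  obtain ⟨h0, hC⟩ := fm_C4 hN hm hd y
  obtain ⟨c, hc, h⟩ := Q283.LP.sqn_spec h0
  obtain ⟨G₀, hG₀⟩ := _root_.Q155.KG.lfun_C4 hC
  obtain ⟨H, hH, hH1⟩ := Pool.Agent.Y914.QMQ4.MQ4 (-2835) (-71442) d49 (sqn (fm N m y d) : ℤ) (c : ℤ)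
    (by exact_mod_cast hC.1.ne_zero) (by exact_mod_cast hc) G₀ hG₀
  have h3 : ((fm N m y d : ℕ) : ℤ) = (sqn (fm N m y d) : ℤ) * (c : ℤ) ^ 2 := by
    have := congrArg (fun w : ℕ => (w : ℤ)) h
    push_cast at this
    exact this
  rw [← h3] at hH
  refine ⟨H, hH, ?_⟩
  rw [hH1 1 (by norm_num)]
  exact (order_Q hC.1.ne_zero hG hG₀).symm

include hN hm hd in
theorem exists_G (y : Finset (Fin n) × Bool) : ∃ G : ℂ → ℂ, IsL ℚ (twist N m d y) 1 G := by
  obtain ⟨h0, hC⟩ := fm_C4 hN hm hd y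
  obtain ⟨G₀, hG₀⟩ := _root_.Q155.KG.lfun_C4 hC
  obtain ⟨F, hF, -⟩ := lift_Q hC.1.ne_zero hG₀
  exact ⟨F, hF⟩

include hN hm hd in
theorem growth_of (hI : IdD m d) (F K : Type) [Field F] [NumberField F] [Field K] [NumberField K]
    [Algebra F K] (hT : IsTower m d F K) : Growth N m d F K := by
  obtain ⟨⟨x, hx, hF⟩, y, hy, hK⟩ := hT
  have hab := _root_.Q155.KG.disc49 (M := (N : ℤ)) (by exact_mod_cast hN.1.ne_zero)
  choose G₁ hG₁ using exists_G hN hm hd
  choose H₁ hH₁ hH₁' using fun p => lfun_fm hN hm hd p (hG₁ p)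
  obtain ⟨LF, LK, k1, k2, -, -⟩ := order_KF hN hm hd hI F K x hx hF y hy hK H₁ hH₁
  have hm1 : ∀ L, IsL F N m L ↔ Y19.QT.IsLFunK F (-2835 * (N : ℤ) ^ 2) (-71442 * (N : ℤ) ^ 3) m L :=
    fun L => isL_iff' F N m L
  have hr : ∀ p : Finset (Fin n) × Bool, r49 (fm N m p d : ℕ) = rank ℚ (twist N m d p) := fun p =>
    r49_sq (fm_C4 hN hm hd p).1 (fm_C4 hN hm hd p).2
  refine ⟨deg_F hI F x hx hF, deg_KF hI F K x hx hF y hy hK, Pool.Agent.Y687.MQ.fg_gen F hab,
    Pool.Agent.Y687.MQ.fg_gen K hab, ?_, rk_mono F K hab, ?_, ⟨LF, LK, (hm1 _).2 k1,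
    (isL_K hm hd N K _).2 k2⟩, fun p => ⟨G₁ p, hG₁ p⟩, fun L₀ L G hL₀ hL hG => ?_⟩
  · have h1 := rank_F hN hm hd hI F x hx hF
    rw [rank_eq, h1, rank_Q, ← hr (∅, true), fm_m]
  · have h1 := rank_K hN hm hd hI F K x hx hF y hy hK
    rw [rank_eq, rank_eq, sum_new]
    refine h1.trans (le_of_eq ?_)
    rw [Finset.sum_congr rfl fun p _ => hr p.1]
  · choose H hH hH' using fun p => lfun_fm hN hm hd p (hG p)
    obtain ⟨LF', LK', a1, a2, a3, a4⟩ := order_KF hN hm hd hI F K x hx hF y hy hK H hH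
    have e1 : L₀ = LF' := Y687.MQ.isLFunK_unique ((hm1 _).1 hL₀) a1
    have e2 : L = LK' := Y687.MQ.isLFunK_unique ((isL_K hm hd N K _).1 hL) a2
    rw [e1, e2, a3, a4, sum_new, a3]
    refine ⟨?_, ?_⟩
    · rw [hH', hH']
    · rw [Finset.sum_congr rfl fun p _ => hH' p.1, hH', hH']

include hN hm hd in
theorem zero_of (hI : IdD m d) (hG : ∀ p, Good (twist N m d p)) (F K : Type) [Field F] [NumberField F]
    [Field K] [NumberField K] [Algebra F K] (hT : IsTower m d F K) : Zero n N m K := by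
  obtain ⟨⟨x, hx, hF⟩, y, hy, hK⟩ := hT
  obtain ⟨⟨⟨L', hL', hL1⟩, hfin⟩, hF2, hKl⟩ := good_KF hN hm hd hI F K x hx hF y hy hK
    fun p => (good_tw hN hm hd p).1 (hG p)
  refine ⟨hfin, fun L hL => ?_, hF2, fun x t hx => hKl t x hx⟩
  rw [Y687.MQ.isLFunK_unique ((isL_K hm hd N K _).1 hL) hL']
  exact hL1

include hN hm hd in
theorem stable_of (hI : IdD m d) (hG : NoNewPart N m d) (F K : Type) [Field F] [NumberField F]
    [Field K] [NumberField K] [Algebra F K] (hT : IsTower m d F K) : Stable N m d F K := by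
  obtain ⟨⟨x, hx, hF⟩, y, hy, hK⟩ := id hT
  have hG' : ∀ p : Pa n, cr (sqn (fm N m p.1 d)) = 0 := fun p =>
    (good_tw hN hm hd p.1).1 (hG p.1 (Finset.mem_filter.2 ⟨Finset.mem_univ _, p.2⟩))
  have hrk : rank K N = rank F N := by
    rw [rank_eq, rank_eq]
    exact stab_rank hN hm hd hI F K x hx hF y hy hK hG'
  have hm1 : ∀ L, IsL F N m L ↔ Y19.QT.IsLFunK F (-2835 * (N : ℤ) ^ 2) (-71442 * (N : ℤ) ^ 3) m L :=
    fun L => isL_iff' F N m L
  obtain ⟨LF, LK, k1, k2, k3⟩ := stab_ord hN hm hd hI F K x hx hF y hy hK hG'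
  have hu1 : ∀ L, IsL F N m L ↔ L = LF := fun L =>
    ⟨fun h => Y687.MQ.isLFunK_unique ((hm1 _).1 h) k1, fun h => by rw [h]; exact (hm1 _).2 k1⟩
  have hu2 : ∀ L, IsL K N m L ↔ L = LK := fun L =>
    ⟨fun h => Y687.MQ.isLFunK_unique ((isL_K hm hd N K _).1 h) k2,
      fun h => by rw [h]; exact (isL_K hm hd N K _).2 k2⟩
  refine ⟨hrk, fun L₀ L h1 h2 => ?_, ?_, ?_, fun g1 g2 => ?_⟩
  · rw [(hu1 _).1 h1, (hu2 _).1 h2]
    exact k3
  · unfold ParityConj
    constructor
    · intro h L hL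
      rw [(hu1 _).1 hL, ← hrk, ← k3]
      exact h LK ((hu2 _).2 rfl)
    · intro h L hL
      rw [(hu2 _).1 hL, hrk, k3]
      exact h LF ((hu1 _).2 rfl)
  · unfold RankConj
    constructor
    · intro h L hL
      rw [(hu1 _).1 hL, ← hrk, ← k3]
      exact h LK ((hu2 _).2 rfl)
    · intro h L hL
      rw [(hu2 _).1 hL, hrk, k3]
      exact h LF ((hu1 _).2 rfl)
  · refine zero_of hN hm hd hI ?_ F K hT
    rintro ⟨T, b⟩
    by_cases hT' : T.Nonempty
    · exact (good_tw hN hm hd _).2 (hG' ⟨(T, b), hT'⟩)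
    · rw [Finset.not_nonempty_iff_eq_empty] at hT'
      subst hT'
      cases b
      · rw [twist_one hN hm hd]
        exact g1
      · exact g2

end

theorem part_eq (D : ℕ) : part D = prt ρ49.Φ D := by
  unfold part prt
  refine Finset.prod_congr (Finset.ext fun p => ?_) fun _ _ => rfl
  rw [Finset.mem_filter, Finset.mem_filter]
  refine and_congr_right fun hp => ?_
  rw [Q283.GW.P49]
  exact ⟨fun h => ⟨Nat.prime_of_mem_primeFactors hp, h⟩, fun h => h.2⟩

theorem part_C4 (D : ℕ) : C4 (part D) := by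
  rw [part_eq, ← Q155.NL.cl_iff]
  exact Q283.LP.prt_mem _ _

theorem share_eq (n m : ℕ) (P : (Fin n → ℕ) → Prop) : share n m P = sT m P := rfl

theorem sT_split {n m : ℕ} {A B Q : (Fin n → ℕ) → Prop} (h : ∀ d ∈ dT n m, B d → Q d ∨ A d) :
    sT m B ≤ sT m Q + sT m A := by
  unfold sT
  rw [← add_div]
  refine div_le_div_of_nonneg_right ?_ (Nat.cast_nonneg _)
  rw [← Nat.cast_add, Nat.cast_le]
  refine le_trans (Finset.card_le_card fun d hd => ?_) (Finset.card_union_le _ _)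
  obtain ⟨h1, h2⟩ := Finset.mem_filter.1 hd
  rw [Finset.mem_union, Finset.mem_filter, Finset.mem_filter]
  exact (h d h1 h2).imp (fun h3 => ⟨h1, h3⟩) fun h3 => ⟨h1, h3⟩

/-- the laws of the new parts -/
theorem laws {S : ℕ → Prop} (h1 : ManyP ρ49 S) (h2 : LawB ρ49 nf S) (n : ℕ)
    (N : Finset (Fin n) × Bool → ℕ) (hN : ∀ y, Class (N y)) {ε : ℝ} (hε : 0 < ε) :
    ∃ D₀ : ℕ, ∀ D : ℕ, D₀ ≤ D → S D →
      share n (part D) (fun d => ¬ Independent (part D) d) ≤ ε ∧
      (∀ Q ⊆ newParts n, |share n (part D) (fun d => ∀ y ∈ newParts n,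
          (Good (twist (N y) (part D) d y) ↔ y ∈ Q)) -
        κ ^ Q.card * (1 - κ) ^ (2 ^ (n + 1) - 2 - Q.card)| ≤ ε) ∧
      (0 < n → ∀ η : ℝ, 0 < η →
        share n (part D) (fun d => η ≤ |(number N (part D) d : ℝ) / (2 ^ (n + 1) - 2 : ℕ) - κ|) ≤
          2 * Real.exp (-(η ^ 2 * (2 ^ (n + 1) - 2 : ℕ) / 4)) + ε) := by
  have hκ : al 0 = κ := Q283.LP.al0_c2
  have hκ1 : 0.4194 < κ := Pool.Agent.Y948.CQ.t_C2.2.2.2.1
  have hκ2 : κ < 0.4195 := Pool.Agent.Y948.CQ.t_C2.2.2.2.2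
  obtain ⟨M, hM⟩ : ∃ M, M = 2 ^ (n + 1) - 2 := ⟨_, rfl⟩
  have e1 := patA h2 n (fun y : Pa n => N y.1) (fun y => (class_cl _).1 (hN y.1))
    (show 0 < ε / 2 ^ M by positivity)
  obtain ⟨D₀, hD₀⟩ := eventually_atTop.1 (e1.and (ind_dT (ρ := ρ49) h1 n hε))
  refine ⟨D₀, fun D hD hS => ?_⟩
  obtain ⟨k1, k2⟩ := hD₀ D hD
  replace k1 := k1 hS
  replace k2 := k2 hS
  rw [← part_eq] at k1 k2
  rw [← hM] at k1 ⊢
  obtain ⟨m, hm⟩ : ∃ m, m = part D := ⟨_, rfl⟩
  have hmC : C4 m := hm ▸ part_C4 D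
  rw [← hm] at k1 k2 ⊢
  rw [hκ] at k1
  have hgd : ∀ d ∈ dT n m, ∀ y, (Good (twist (N y) m d y) ↔
      rk ρ49.Φ nf (sqn (fm (N y) m y d)).primeFactors = 0) := fun d hd y =>
    good_tw ((class_iff _).1 (hN y)) hmC ((mem_dT hmC.1.ne_zero).1 hd) y
  have hle : ε / 2 ^ M ≤ ε := div_le_self hε.le (one_le_pow₀ (by norm_num))
  -- patterns over the subtype
  have key : ∀ Q : Finset (Pa n), |sT m (fun d : Fin n → ℕ => ∀ y : Pa n,
      (Good (twist (N y.1) m d y.1) ↔ y ∈ Q)) - κ ^ Q.card * (1 - κ) ^ (M - Q.card)| ≤ ε / 2 ^ M := by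
    intro Q
    rw [sT_congr (Q := fun d : Fin n → ℕ => ∀ y : Pa n,
      (rk ρ49.Φ nf (sqn (fm (N y.1) m y.1 d)).primeFactors = 0 ↔ y ∈ Q)) fun d hd =>
        forall_congr' fun y => by rw [hgd d hd y.1]]
    exact k1 Q
  refine ⟨k2, fun Q hQ => ?_, fun hn η hη => ?_⟩
  · obtain ⟨Q', hQ'⟩ : ∃ Q' : Finset (Pa n), Q' = Finset.univ.filter fun y => y.1 ∈ Q := ⟨_, rfl⟩
    have hcard : Q'.card = Q.card := by
      rw [hQ']
      refine Finset.card_bij (fun y _ => y.1) (fun y hy => (Finset.mem_filter.1 hy).2)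
        (fun a _ b _ h => Subtype.ext h) fun y hy => ?_
      exact ⟨⟨y, (Finset.mem_filter.1 (hQ hy)).2⟩, Finset.mem_filter.2 ⟨Finset.mem_univ _, hy⟩, rfl⟩
    have h3 := key Q'
    rw [hcard] at h3
    rw [share_eq, sT_congr (Q := fun d : Fin n → ℕ => ∀ y : Pa n,
      (Good (twist (N y.1) m d y.1) ↔ y ∈ Q')) fun d hd => ?_]
    · exact h3.trans hle
    · constructor
      · intro h y
        rw [h y.1 (Finset.mem_filter.2 ⟨Finset.mem_univ _, y.2⟩), hQ', Finset.mem_filter]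
        exact ⟨fun h => ⟨Finset.mem_univ _, h⟩, fun h => h.2⟩
      · intro h y hy
        have hyn : y.1.Nonempty := (Finset.mem_filter.1 hy).2
        have h4 : Good (twist (N y) m d y) ↔ (⟨y, hyn⟩ : Pa n) ∈ Q' := h ⟨y, hyn⟩
        rw [h4, hQ', Finset.mem_filter]
        exact ⟨fun h => h.2, fun h => ⟨Finset.mem_univ _, h⟩⟩
  · have hpos : (0 : ℝ) < ((dT n m).card : ℝ) := dT_pos hmC.1.ne_zero
    have hcP : Fintype.card (Pa n) = M := by rw [card_Pa, hM]
    have hM0 : 0 < M := by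
      rw [hM]
      have h5 : 2 ^ 2 ≤ 2 ^ (n + 1) := Nat.pow_le_pow_right (by norm_num) (by omega)
      omega
    have h3 := lln_gen hpos (Pa n) (fun y d => Good (twist (N y.1) m d y.1)) (p := κ)
      (δ := ε / 2 ^ M) (by linarith) (by linarith) (fun Q => by
        have h4 := key Q
        rw [hcP]
        have h5 : cE (dT n m) (fun d => ∀ y : Pa n, (Good (twist (N y.1) m d y.1) ↔ y ∈ Q)) -
            κ ^ Q.card * (1 - κ) ^ (M - Q.card) * (dT n m).card =
            (sT m (fun d : Fin n → ℕ => ∀ y : Pa n, (Good (twist (N y.1) m d y.1) ↔ y ∈ Q)) -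
              κ ^ Q.card * (1 - κ) ^ (M - Q.card)) * (dT n m).card := by
          unfold sT cE
          field_simp
        rw [h5, abs_mul, abs_of_pos hpos]
        exact mul_le_mul_of_nonneg_right h4 hpos.le) (by rw [hcP]; exact hM0) hη
    rw [hcP] at h3
    have h6 : (2 : ℝ) ^ M * (ε / 2 ^ M) = ε := by field_simp
    rw [h6] at h3
    have h7 : ∀ d : Fin n → ℕ, number N m d = nJ (Pa n) (fun y => Good (twist (N y.1) m d y.1)) := by
      intro d
      unfold number nJ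
      symm
      refine Finset.card_bij (fun y _ => y.1) (fun y hy => ?_) (fun a _ b _ h => Subtype.ext h)
        fun y hy => ?_
      · exact Finset.mem_filter.2 ⟨Finset.mem_filter.2 ⟨Finset.mem_univ _, y.2⟩,
          (Finset.mem_filter.1 hy).2⟩
      · obtain ⟨h8, h9⟩ := Finset.mem_filter.1 hy
        exact ⟨⟨y, (Finset.mem_filter.1 h8).2⟩, Finset.mem_filter.2 ⟨Finset.mem_univ _, h9⟩, rfl⟩
    rw [share_eq]
    unfold sT
    rw [div_le_iff₀ hpos]
    refine le_trans (le_of_eq ?_) h3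
    unfold cE
    refine congrArg Nat.cast (fcc fun d _ => ?_)
    rw [h7 d]

/-- the share of the stable towers -/
theorem stab_law {S : ℕ → Prop} (h1 : ManyP ρ49 S) (h2 : LawB ρ49 nf S) (n N : ℕ) (hN : Class N)
    {ε : ℝ} (hε : 0 < ε) : ∃ D₀ : ℕ, ∀ D : ℕ, D₀ ≤ D → S D → κ ^ (2 ^ (n + 1) - 2) - ε ≤
      share n (part D) (fun d => Independent (part D) d ∧ ∀ (F K : Type) [Field F] [NumberField F]
        [Field K] [NumberField K] [Algebra F K], IsTower (part D) d F K →
          Stable N (part D) d F K) := by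
  obtain ⟨D₀, hD₀⟩ := laws h1 h2 n (fun _ => N) (fun _ => hN) (half_pos hε)
  refine ⟨D₀, fun D hD hS => ?_⟩
  obtain ⟨k1, k2, -⟩ := hD₀ D hD hS
  have hmC : C4 (part D) := part_C4 D
  have hc : (newParts n).card = 2 ^ (n + 1) - 2 := by
    rw [← card_Pa n, Fintype.card_subtype]
    rfl
  have k3 := (abs_le.1 (k2 (newParts n) (Finset.Subset.refl _))).1
  rw [hc, Nat.sub_self, pow_zero, mul_one] at k3
  rw [share_eq] at k1 k3 ⊢
  have h3 : sT (part D) (fun d : Fin n → ℕ => ∀ y ∈ newParts n, (Good (twist N (part D) d y) ↔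
      y ∈ newParts n)) ≤ sT (part D) (fun d : Fin n → ℕ => Independent (part D) d ∧
        ∀ (F K : Type) [Field F] [NumberField F] [Field K] [NumberField K] [Algebra F K],
          IsTower (part D) d F K → Stable N (part D) d F K) +
        sT (part D) fun d : Fin n → ℕ => ¬ Independent (part D) d := by
    refine sT_split fun d hd hG => ?_
    by_cases hI : Independent (part D) d
    swap
    · exact Or.inr hI
    refine Or.inl ⟨hI, fun F K _ _ _ _ _ hT => ?_⟩
    exact stable_of ((class_iff N).1 hN) hmC ((mem_dT hmC.1.ne_zero).1 hd) hI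
      (fun y hy => (hG y hy).2 hy) F K hT
  linarith

/-- the laws of the parts of the twist by a random divisor -/
theorem rnd_law {S : ℕ → Prop} (h1 : ManyP ρ49 S) (h2 : LawB ρ49 nf S) (n : ℕ) {ε : ℝ} (hε : 0 < ε) :
    ∃ D₀ : ℕ, ∀ D : ℕ, D₀ ≤ D → S D →
      (∀ Q : Finset (Finset (Fin n) × Bool), |share (n + 1) (part D) (fun c => ∀ y,
          (Good (twist (c 0) (part D) (fun i => c i.succ) y) ↔ y ∈ Q)) -
        κ ^ Q.card * (1 - κ) ^ (2 ^ (n + 1) - Q.card)| ≤ ε) ∧
      κ ^ 2 ^ (n + 1) - ε ≤ share (n + 1) (part D) (fun c =>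
        Independent (part D) (fun i => c i.succ) ∧ ∀ (F K : Type) [Field F] [NumberField F]
          [Field K] [NumberField K] [Algebra F K], IsTower (part D) (fun i => c i.succ) F K →
            Zero n (c 0) (part D) K) := by
  have hκ : al 0 = κ := Q283.LP.al0_c2
  obtain ⟨D₀, hD₀⟩ := eventually_atTop.1 ((patR h2 n (half_pos hε)).and
    (ind_dT' (ρ := ρ49) h1 n (half_pos hε)))
  refine ⟨D₀, fun D hD hS => ?_⟩
  obtain ⟨k1, k2⟩ := hD₀ D hD
  replace k1 := k1 hS
  replace k2 := k2 hS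
  rw [← part_eq] at k1 k2
  obtain ⟨m, hm⟩ : ∃ m, m = part D := ⟨_, rfl⟩
  have hmC : C4 m := hm ▸ part_C4 D
  rw [← hm] at k1 k2 ⊢
  rw [hκ] at k1
  have h0 : ∀ c ∈ dT (n + 1) m, C4 (c 0) ∧ ∀ i : Fin n, c i.succ ∣ m := fun c hc =>
    ⟨c4_dvd' hmC ((mem_dT hmC.1.ne_zero).1 hc 0), fun i => (mem_dT hmC.1.ne_zero).1 hc i.succ⟩
  have k3 : ∀ Q : Finset (Finset (Fin n) × Bool), |sT m (fun c : Fin (n + 1) → ℕ => ∀ y,
      (Good (twist (c 0) m (fun i => c i.succ) y) ↔ y ∈ Q)) -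
        κ ^ Q.card * (1 - κ) ^ (2 ^ (n + 1) - Q.card)| ≤ ε / 2 := by
    intro Q
    rw [sT_congr (Q := fun c : Fin (n + 1) → ℕ => ∀ y : Finset (Fin n) × Bool,
      (rk ρ49.Φ nf (sqn (fm (c 0) m y (fun i => c i.succ))).primeFactors = 0 ↔ y ∈ Q)) fun c hc =>
        forall_congr' fun y => by
          rw [good_tw (h0 c hc).1 hmC (h0 c hc).2 y]
          exact Iff.rfl]
    exact k1 Q
  refine ⟨fun Q => (k3 Q).trans (by linarith), ?_⟩
  have hc : (Finset.univ : Finset (Finset (Fin n) × Bool)).card = 2 ^ (n + 1) := by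
    rw [Finset.card_univ, Fintype.card_prod, Fintype.card_finset, Fintype.card_fin,
      Fintype.card_bool, pow_succ]
  have k4 := (abs_le.1 (k3 Finset.univ)).1
  rw [hc, Nat.sub_self, pow_zero, mul_one] at k4
  rw [share_eq]
  have h3 : sT m (fun c : Fin (n + 1) → ℕ => ∀ y, (Good (twist (c 0) m (fun i => c i.succ) y) ↔
      y ∈ (Finset.univ : Finset (Finset (Fin n) × Bool)))) ≤ sT m (fun c : Fin (n + 1) → ℕ =>
        Independent m (fun i => c i.succ) ∧
        ∀ (F K : Type) [Field F] [NumberField F] [Field K] [NumberField K] [Algebra F K],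
          IsTower m (fun i => c i.succ) F K → Zero n (c 0) m K) +
        sT m fun c : Fin (n + 1) → ℕ => ¬ Independent m (fun i => c i.succ) := by
    refine sT_split fun c hc hG => ?_
    by_cases hI : Independent m (fun i => c i.succ)
    swap
    · exact Or.inr hI
    refine Or.inl ⟨hI, fun F K _ _ _ _ _ hT => ?_⟩
    exact zero_of (h0 c hc).1 hmC (h0 c hc).2 hI (fun y => (hG y).2 (Finset.mem_univ y)) F K hT
  have h4 : sT m (fun c : Fin (n + 1) → ℕ => ¬ Independent m (fun i => c i.succ)) ≤ ε / 2 := k2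
  linarith

/-- the mean of the ranks of the new parts -/
theorem mean_law {S : ℕ → Prop} (h : ∀ N, C4 N → ∀ ε : ℝ, 0 < ε → ∀ᶠ D in atTop, S D →
    Q155.NL.LD (fun d => cr (Q155.NL.tw N d)) ε (prt ρ49.Φ D)) (N : ℕ) (hN : Class N) :
    ∃ D₀ : ℕ, ∀ D : ℕ, D₀ ≤ D → S D → ∀ n : ℕ,
      ∑ d ∈ tuples n (part D), ∑ y ∈ newParts n, (rank ℚ (twist N (part D) d y) : ℝ) ≤
        1.53 * (2 ^ (n + 1) - 2 : ℕ) * (tuples n (part D)).card := by
  have hNC := (class_iff N).1 hN
  obtain ⟨D₀, hD₀⟩ := eventually_atTop.1 (h N hNC (1 / 10000) (by norm_num))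
  refine ⟨D₀, fun D hD hS n => ?_⟩
  have k1 := Q155.NL.mean_div (hD₀ D hD hS)
  rw [← part_eq] at k1
  have hmC : C4 (part D) := part_C4 D
  obtain ⟨m, hm⟩ : ∃ m, m = part D := ⟨_, rfl⟩
  rw [← hm] at k1 hmC ⊢
  rw [Finset.sum_comm]
  have hc : (newParts n).card = 2 ^ (n + 1) - 2 := by
    rw [← card_Pa n, Fintype.card_subtype]
    rfl
  have h1 : ∀ y ∈ newParts n, ∑ d ∈ tuples n m, (rank ℚ (twist N m d y) : ℝ) ≤
      1.53 * (tuples n m).card := by
    intro y hy
    have hy' : y.1.Nonempty := (Finset.mem_filter.1 hy).2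
    have h2 := mean_form hNC hmC (⟨y, hy'⟩ : Pa n)
    have h3 : ∀ d ∈ tuples n m, (rank ℚ (twist N m d y) : ℝ) ≤ 2 * (cr (sqn (fm N m y d)) : ℝ) := by
      intro d hd
      have hd' : ∀ i, d i ∣ m := (mem_dT hmC.1.ne_zero).1 hd
      obtain ⟨h4, h5⟩ := fm_C4 hNC hmC hd' y
      have h6 := r49_le h4 h5
      rw [r49_sq h4 h5] at h6
      exact_mod_cast h6
    refine (Finset.sum_le_sum h3).trans ?_
    rw [← Finset.mul_sum]
    have h7 : ∑ d ∈ tuples n m, (cr (sqn (fm N m y d)) : ℝ) = (dT n m).card *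
        Q155.NL.dav (fun e => cr (Q155.NL.tw N e)) m := h2
    rw [h7]
    have h8 : (0 : ℝ) ≤ (dT n m).card := Nat.cast_nonneg _
    have h9 : (tuples n m).card = (dT n m).card := rfl
    rw [h9]
    nlinarith
  refine (Finset.sum_le_sum h1).trans (le_of_eq ?_)
  rw [Finset.sum_const, hc, nsmul_eq_mul]
  ring

end proof

theorem result :
    -- (0)
    (∀ (n m : ℕ) (d : Fin n → ℕ), Class m → (∀ i, d i ∣ m) → ∀ (F K : Type) [Field F] [NumberField F]
      [Field K] [NumberField K] [Algebra F K], IsTower m d F K → Unramified F K) ∧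
    -- (1), (2)
    (∀ (n N m : ℕ) (d : Fin n → ℕ), Class N → Class m → (∀ i, d i ∣ m) → Independent m d →
      ∀ (F K : Type) [Field F] [NumberField F] [Field K] [NumberField K] [Algebra F K],
        IsTower m d F K → Growth N m d F K ∧ (NoNewPart N m d → Stable N m d F K)) ∧
    -- the twists
    (∀ (n N m : ℕ) (d : Fin n → ℕ), Class N → Class m → (∀ i, d i ∣ m) → ∀ y,
      Class (twist N m d y) ∧ ∃ c : ℕ, c ≠ 0 ∧
        N * (m ^ (if y.2 then 1 else 0) * ∏ i ∈ y.1, d i) = twist N m d y * c ^ 2) ∧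
    (∀ D : ℕ, Class (part D) ∧ ∀ n : ℕ,
      (tuples n (part D)).card = 2 ^ (n * (part D).primeFactors.card)) ∧
    ∃ S : ℕ → Prop, Tendsto (fun X : ℕ => (count S X : ℝ) / X) atTop (nhds 1) ∧
      Tendsto (fun X : ℕ => (count (fun D => Class D ∧ S D) X : ℝ) / count Class X) atTop (nhds 1) ∧
      -- (3) the laws of the new parts
      (∀ (n : ℕ) (N : Finset (Fin n) × Bool → ℕ), (∀ y, Class (N y)) → ∀ ε : ℝ, 0 < ε →
        ∃ D₀ : ℕ, ∀ D : ℕ, D₀ ≤ D → S D →
          share n (part D) (fun d => ¬ Independent (part D) d) ≤ ε ∧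
          (∀ Q ⊆ newParts n, |share n (part D) (fun d => ∀ y ∈ newParts n,
              (Good (twist (N y) (part D) d y) ↔ y ∈ Q)) -
            κ ^ Q.card * (1 - κ) ^ (2 ^ (n + 1) - 2 - Q.card)| ≤ ε) ∧
          (0 < n → ∀ η : ℝ, 0 < η → share n (part D) (fun d =>
              η ≤ |(number N (part D) d : ℝ) / (2 ^ (n + 1) - 2 : ℕ) - κ|) ≤
            2 * Real.exp (-(η ^ 2 * (2 ^ (n + 1) - 2 : ℕ) / 4)) + ε)) ∧
      (∀ n N : ℕ, Class N → ∀ ε : ℝ, 0 < ε → ∃ D₀ : ℕ, ∀ D : ℕ, D₀ ≤ D → S D →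
        κ ^ (2 ^ (n + 1) - 2) - ε ≤ share n (part D) (fun d => Independent (part D) d ∧
          ∀ (F K : Type) [Field F] [NumberField F] [Field K] [NumberField K] [Algebra F K],
            IsTower (part D) d F K → Stable N (part D) d F K)) ∧
      -- (4) the base is a divisor, too
      (∀ (n : ℕ) (ε : ℝ), 0 < ε → ∃ D₀ : ℕ, ∀ D : ℕ, D₀ ≤ D → S D →
        (∀ Q : Finset (Finset (Fin n) × Bool), |share (n + 1) (part D) (fun c => ∀ y,
            (Good (twist (c 0) (part D) (fun i => c i.succ) y) ↔ y ∈ Q)) -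
          κ ^ Q.card * (1 - κ) ^ (2 ^ (n + 1) - Q.card)| ≤ ε) ∧
        κ ^ 2 ^ (n + 1) - ε ≤ share (n + 1) (part D) (fun c =>
          Independent (part D) (fun i => c i.succ) ∧
          ∀ (F K : Type) [Field F] [NumberField F] [Field K] [NumberField K] [Algebra F K],
            IsTower (part D) (fun i => c i.succ) F K → Zero n (c 0) (part D) K)) ∧
      -- (5) the mean growth
      (∀ N : ℕ, Class N → ∃ D₀ : ℕ, ∀ D : ℕ, D₀ ≤ D → S D → ∀ n : ℕ,
        ∑ d ∈ tuples n (part D), ∑ y ∈ newParts n, (rank ℚ (twist N (part D) d y) : ℝ) ≤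
          1.53 * (2 ^ (n + 1) - 2 : ℕ) * (tuples n (part D)).card) ∧
      0.4194 < κ ∧ κ < 0.4195 := by
  refine ⟨fun n m d hm hd F K _ _ _ _ _ hT => ?_, fun n N m d hN hm hd hI F K _ _ _ _ _ hT => ?_,
    fun n N m d hN hm hd y => ?_, fun D => ?_, ?_⟩
  · obtain ⟨⟨x, hx, hF⟩, y, hy, hK⟩ := hT
    exact Q155.BP.unram_KF ((class_iff m).1 hm) hd F K x hx hF y hy hK
  · have h1 := (class_iff N).1 hN
    have h2 := (class_iff m).1 hm
    exact ⟨growth_of h1 h2 hd hI F K hT, fun hG => stable_of h1 h2 hd hI hG F K hT⟩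
  · have h1 := (class_iff N).1 hN
    have h2 := (class_iff m).1 hm
    obtain ⟨h3, h4⟩ := Q155.BP.fm_C4 h1 h2 hd y
    exact ⟨(class_iff _).2 h4, Q283.LP.sqn_spec h3⟩
  · have h1 := part_C4 D
    refine ⟨(class_iff _).2 h1, fun n => ?_⟩
    have h2 : (tuples n (part D)).card =
        Fintype.card (↥(part D).primeFactors → Finset (Fin n)) := Q155.BP.card_dT_all h1.1
    rw [h2, Fintype.card_fun, Fintype.card_finset, Fintype.card_fin, Fintype.card_coe, ← pow_mul]
  · obtain ⟨S, hS, hS', hM, hL, hD⟩ := Q155.BP.main49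
    have hcc : ∀ X : ℕ, count Class X = Q155.NL.cnt (Q155.NL.Cl Q283.GW.ρ49.Φ) X := by
      intro X
      unfold count Q155.NL.cnt Q155.NL.cs
      exact Q283.LP.fcc fun D _ => class_cl D
    refine ⟨S, ?_, ?_, fun n N hN ε hε => laws hM hL n N hN hε,
      fun n N hN ε hε => stab_law hM hL n N hN hε, fun n ε hε => rnd_law hM hL n hε,
      fun N hN => mean_law hD N hN, Pool.Agent.Y948.CQ.t_C2.2.2.2⟩
    · have h1 := Q155.NL.tendsto_of_alm (C := fun _ => True) ⟨1, le_rfl, trivial⟩ hS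
      refine h1.congr fun X => ?_
      have h2 : Q155.NL.cnt (fun _ => True) X = X := by
        have h0 : Q155.NL.cs (fun _ => True) X = Finset.Icc 1 X := by
          ext D
          rw [Q155.NL.mem_cs, Finset.mem_Icc]
          exact ⟨fun h => h.1, fun h => ⟨h, trivial⟩⟩
        unfold Q155.NL.cnt
        rw [h0, Nat.card_Icc]
        omega
      rw [h2]
      congr 2
      unfold Q155.NL.cnt Q155.NL.cs count
      congr 1
      ext D
      simp
    · have h1 := Q155.NL.tendsto_of_alm (C := Q155.NL.Cl Q283.GW.ρ49.Φ)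
        ⟨1, le_rfl, squarefree_one, by simp⟩ hS'
      refine h1.congr fun X => ?_
      rw [hcc]
      congr 2
      unfold Q155.NL.cnt Q155.NL.cs count
      exact Q283.LP.fcc fun D _ => and_congr_left fun _ => (class_cl D).symm

end Pool.Agent.Results.MP_02f36d_nt.UnramifiedExtensions
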